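import Mathlib

set_option autoImplicit false

open scoped Topology

namespace Pool.Agent.PV

/-- partition of unity: a continuous function is close to a combination of its values -/
theorem PU_approx {X E : Type} [TopologicalSpace X] [CompactSpace X] [T2Space X]
    [NormedAddCommGroup E] [NormedSpace ℂ E] (f : C(X, E)) (ε : ℝ) (hε : 0 < ε) :
    ∃ (n : ℕ) (φ : Fin n → C(X, ℂ)) (x : Fin n → X),
      ∀ y, ‖f y - ∑ i, φ i y • f (x i)‖ ≤ ε := by
  classical
  have hU : ∀ x : X, IsOpen {y | ‖f y - f x‖ < ε} := fun x =>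
    isOpen_lt ((f.continuous.sub continuous_const).norm) continuous_const
  obtain ⟨T, hT⟩ := (isCompact_univ (X := X)).elim_finite_subcover (fun x => {y | ‖f y - f x‖ < ε})
    hU (fun y _ => Set.mem_iUnion.2 ⟨y, by simp [hε]⟩)
  obtain ⟨n, ⟨e⟩⟩ := Finite.exists_equiv_fin T
  have hcov : (Set.univ : Set X) ⊆ ⋃ i : Fin n, {y | ‖f y - f (e.symm i : X)‖ < ε} := by
    intro y hy
    obtain ⟨x, hx⟩ := Set.mem_iUnion.1 (hT hy)
    obtain ⟨hx1, hx2⟩ := Set.mem_iUnion.1 hx
    refine Set.mem_iUnion.2 ⟨e ⟨x, hx1⟩, ?_⟩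
    rw [Equiv.symm_apply_apply]
    exact hx2
  obtain ⟨g, hg1, hg2, hg3, -⟩ := exists_continuous_sum_one_of_isOpen_isCompact
    (s := fun i : Fin n => {y | ‖f y - f (e.symm i : X)‖ < ε}) (fun i => hU _) isCompact_univ hcov
  refine ⟨n, fun i => ⟨fun y => (g i y : ℂ), Complex.continuous_ofReal.comp (g i).continuous⟩,
    fun i => (e.symm i : X), fun y => ?_⟩
  have h1 : ∑ i, g i y = 1 := by
    have := hg2 (Set.mem_univ y)
    simpa using this
  have h2 : f y - ∑ i, ((g i y : ℝ) : ℂ) • f (e.symm i : X) =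
      ∑ i, ((g i y : ℝ) : ℂ) • (f y - f (e.symm i : X)) := by
    simp only [smul_sub, Finset.sum_sub_distrib]
    rw [← Finset.sum_smul, ← Complex.ofReal_sum, h1, Complex.ofReal_one, one_smul]
  change ‖f y - ∑ i, ((g i y : ℝ) : ℂ) • f (e.symm i : X)‖ ≤ ε
  rw [h2]
  calc ‖∑ i, ((g i y : ℝ) : ℂ) • (f y - f (e.symm i : X))‖
      ≤ ∑ i, ‖((g i y : ℝ) : ℂ) • (f y - f (e.symm i : X))‖ := norm_sum_le _ _
    _ ≤ ∑ i, g i y * ε := by
        refine Finset.sum_le_sum fun i _ => ?_
        rw [norm_smul, Complex.norm_real, Real.norm_of_nonneg (hg3 i y).1]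
        by_cases h : g i y = 0
        · rw [h, zero_mul, zero_mul]
        · have hy : y ∈ tsupport (g i) := subset_tsupport _ h
          exact mul_le_mul_of_nonneg_left (le_of_lt (hg1 i hy)) (hg3 i y).1
    _ = ε := by rw [← Finset.sum_mul, h1, one_mul]

/-- a closed submodule which contains all elementary tensors is everything -/
theorem PU_dense {X E : Type} [TopologicalSpace X] [CompactSpace X] [T2Space X]
    [NormedAddCommGroup E] [NormedSpace ℂ E] (W : Submodule ℂ C(X, E))
    (h : ∀ (φ : C(X, ℂ)) (a : E), ∀ g : C(X, E), (∀ x, g x = φ x • a) → g ∈ W.topologicalClosure) :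
    Dense (W : Set C(X, E)) := by
  intro f
  have hc : IsClosed (W.topologicalClosure : Set C(X, E)) := W.isClosed_topologicalClosure
  have : f ∈ closure (W.topologicalClosure : Set C(X, E)) := by
    rw [Metric.mem_closure_iff]
    intro ε hε
    obtain ⟨n, φ, x, hx⟩ := PU_approx f (ε / 2) (by positivity)
    let g : Fin n → C(X, E) := fun i =>
      ⟨fun y => φ i y • f (x i), (φ i).continuous.smul continuous_const⟩
    refine ⟨∑ i, g i, Submodule.sum_mem _ fun i _ => h (φ i) (f (x i)) (g i) fun _ => rfl, ?_⟩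
    rw [dist_eq_norm]
    refine lt_of_le_of_lt ((ContinuousMap.norm_le _ (by positivity : (0 : ℝ) ≤ ε / 2)).2
      fun y => ?_) (half_lt_self hε)
    have e : (f - ∑ i, g i) y = f y - ∑ i, φ i y • f (x i) := by
      rw [ContinuousMap.sub_apply, ContinuousMap.sum_apply]
      rfl
    rw [e]
    exact hx y
  rw [hc.closure_eq] at this
  exact this

end Pool.Agent.PV
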