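import Pool.Agent.helper77.PV.SpecC
import Pool.Agent.helper5.PV.PU

set_option autoImplicit false

open scoped Matrix Topology
open Filter

namespace Pool.Agent.PV

open Pool.Agent.CZ

theorem ZLP_norm {X B D : Type} [TopologicalSpace X] [CompactSpace X] [NormedAddCommGroup B]
    [NormedAddCommGroup D] (f : C(X, B)) (g : C(X, D)) (h : ∀ x, ‖f x‖ = ‖g x‖) : ‖f‖ = ‖g‖ := by
  rw [ContinuousMap.norm_eq_iSup_norm, ContinuousMap.norm_eq_iSup_norm]
  exact iSup_congr h

theorem ZLP_pow {X A : Type} [TopologicalSpace X] [NormedRing A] [NormedAlgebra ℂ A] (u : Aˣ)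
    (U : (C(X, A))ˣ) (hU : ∀ x, (U : C(X, A)) x = u) (hU' : ∀ x, ((U⁻¹ : (C(X, A))ˣ) : C(X, A)) x =
      ((u⁻¹ : Aˣ) : A)) (n : ℤ) (x : X) :
    ((U ^ n : (C(X, A))ˣ) : C(X, A)) x = ((u ^ n : Aˣ) : A) := by
  cases n with
  | ofNat n =>
    rw [Int.ofNat_eq_natCast, zpow_natCast, zpow_natCast, Units.val_pow_eq_pow_val, Units.val_pow_eq_pow_val,
      ContinuousMap.pow_apply, hU]
  | negSucc n =>
    rw [zpow_negSucc, zpow_negSucc, ← inv_pow, ← inv_pow, Units.val_pow_eq_pow_val,
      Units.val_pow_eq_pow_val, ContinuousMap.pow_apply, hU']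

theorem ZLP (hZC : ZC_stmt) : ZLP_stmt := by
  intro B A _ _ _ _ _ _ al io u c h h' hi hZ
  let cL : ℤ → A →L[ℂ] B := fun n => (c n).mkContinuous 1 (fun a => by
    rw [one_mul]
    exact hZ.cnorm n a)
  let cc : ℤ → C(UnitAddCircle, A) →ₗ[ℂ] C(UnitAddCircle, B) := fun n =>
    { toFun := fun f => ⟨fun t => c n (f t), (cL n).continuous.comp f.continuous⟩
      map_add' := fun f g => by
        ext t
        exact map_add (c n) (f t) (g t)
      map_smul' := fun k f => by
        ext t
        exact map_smul (c n) k (f t) }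
  have hpow : ∀ (n : ℤ) (t : UnitAddCircle), ((lu u ^ n : (C(UnitAddCircle, A))ˣ) :
      C(UnitAddCircle, A)) t = ((u ^ n : Aˣ) : A) := ZLP_pow u (lu u) (fun _ => rfl) (fun _ => rfl)
  refine ⟨cc, ⟨?_, ?_, ?_, ?_, ?_, ?_, ?_, ?_⟩, fun _ _ _ => rfl⟩
  · intro f
    exact ZLP_norm _ _ fun x => hZ.isoB (f x)
  · intro f
    exact ZLP_norm _ _ fun x => hZ.isoA (f x)
  · exact (ContinuousMap.norm_le _ zero_le_one).2 fun x => hZ.nu
  · exact (ContinuousMap.norm_le _ zero_le_one).2 fun x => hZ.nui
  · intro f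
    ext t
    exact hZ.cov (f t)
  · refine PU_dense _ ?_
    intro φ a
    -- closure
    set W : Submodule ℂ C(UnitAddCircle, A) := Submodule.span ℂ {a : C(UnitAddCircle, A) |
      ∃ (b : C(UnitAddCircle, B)) (n : ℤ), a = cmpC UnitAddCircle io hi b *
        ((lu u ^ n : (C(UnitAddCircle, A))ˣ) : C(UnitAddCircle, A))} with hW
    let Φ : A →L[ℂ] C(UnitAddCircle, A) :=
      LinearMap.mkContinuous
        { toFun := fun a => ⟨fun t => φ t • a, φ.continuous.smul continuous_const⟩
          map_add' := fun a b => by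
            ext t
            exact smul_add (φ t) a b
          map_smul' := fun k a => by
            ext t
            exact smul_comm (φ t) k a } ‖φ‖ (fun a => by
          refine (ContinuousMap.norm_le _ (by positivity)).2 fun t => ?_
          refine (norm_smul_le (φ t) a).trans ?_
          exact mul_le_mul_of_nonneg_right (φ.norm_coe_le_norm t) (norm_nonneg a))
    have h1 : (Submodule.span ℂ {a : A | ∃ (b : B) (n : ℤ), a = io b * ((u ^ n : Aˣ) : A)}) ≤
        W.comap (Φ : A →ₗ[ℂ] C(UnitAddCircle, A)) := by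
      rw [Submodule.span_le]
      rintro _ ⟨b, n, rfl⟩
      refine Submodule.subset_span ⟨⟨fun t => φ t • b, φ.continuous.smul continuous_const⟩, n, ?_⟩
      ext t
      change φ t • (io b * ((u ^ n : Aˣ) : A)) = io (φ t • b) * _
      rw [hpow, map_smul, smul_mul_assoc]
    have h2 : ∀ a : A, Φ a ∈ W.topologicalClosure := by
      intro a
      have hd := hZ.dense a
      have := map_mem_closure Φ.continuous hd (t := (W : Set C(UnitAddCircle, A)))
        (fun x hx => h1 hx)
      exact this
    intro g hg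
    have : g = Φ a := by
      ext t
      exact hg t
    rw [this]
    exact h2 a
  · intro n f
    refine (ContinuousMap.norm_le _ (norm_nonneg f)).2 fun t => ?_
    exact (hZ.cnorm n (f t)).trans (f.norm_coe_le_norm t)
  · intro m n f
    ext t
    change c m (io (f t) * _) = _
    rw [hpow, hZ.cval]
    split_ifs <;> rfl

end Pool.Agent.PV
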