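import Pool.Agent.helper77.PV.SpecC
import Pool.Agent.helper5.PV.PU
import Pool.Agent.helper5.PV.ZLP

set_option autoImplicit false

open scoped Matrix Topology
open Filter MeasureTheory

namespace Pool.Agent.PV

open Pool.Agent.CZ

theorem BZP_coeff {B : Type} [NormedRing B] [NormedAlgebra ℂ B] [CompleteSpace B] (b : B) (m n : ℤ) :
    fourierCoeff (T := 1) (fun t : UnitAddCircle => (fourier n t : ℂ) • b) m = if m = n then b else 0 := by
  unfold fourierCoeff
  have h : ∀ t : UnitAddCircle, (fourier (-m) t : ℂ) • ((fourier n t : ℂ) • b) =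
      ((fourier (-m) t : ℂ) * (fourier n t : ℂ)) • b := fun t => smul_smul _ _ _
  simp_rw [h]
  rw [integral_smul_const]
  have h2 : ∫ t : UnitAddCircle, (fourier (-m) t : ℂ) * (fourier n t : ℂ) ∂AddCircle.haarAddCircle =
      fourierCoeff (T := 1) (fourier n) m := rfl
  rw [h2, fourierCoeff_fourier, Pi.single_apply]
  split_ifs <;> simp

theorem BZP_of (B : Type) [NormedRing B] [NormedAlgebra ℂ B] [CompleteSpace B] (h1 : ‖(1 : B)‖ ≤ 1) :
    ∃ c : ℤ → C(UnitAddCircle, B) →ₗ[ℂ] B, ZPair (AlgEquiv.refl : B ≃ₐ[ℂ] B) (cl B) (zU B) c := by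
  have hint : ∀ (n : ℤ) (f : C(UnitAddCircle, B)), Integrable
      (fun t : UnitAddCircle => (fourier (-n) t : ℂ) • f t) AddCircle.haarAddCircle := fun n f =>
    ((map_continuous (fourier (-n))).smul f.continuous).integrable_of_hasCompactSupport
      (HasCompactSupport.of_compactSpace _)
  have hpow : ∀ (n : ℤ) (t : UnitAddCircle), ((zU B ^ n : (C(UnitAddCircle, B))ˣ) :
      C(UnitAddCircle, B)) t = (fourier n t : ℂ) • (1 : B) := by
    have hnat : ∀ (n : ℕ) (t : UnitAddCircle), ((zU B ^ n : (C(UnitAddCircle, B))ˣ) :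
        C(UnitAddCircle, B)) t = (fourier (n : ℤ) t : ℂ) • (1 : B) := by
      intro n t
      induction n with
      | zero => simp
      | succ n ih =>
        rw [pow_succ, Units.val_mul, ContinuousMap.mul_apply, ih]
        change (fourier (n : ℤ) t : ℂ) • (1 : B) * ((fourier 1 t : ℂ) • (1 : B)) = _
        rw [smul_mul_smul_comm, mul_one, ← fourier_add]
        push_cast
        rfl
    have hnat' : ∀ (n : ℕ) (t : UnitAddCircle), (((zU B)⁻¹ ^ n : (C(UnitAddCircle, B))ˣ) :
        C(UnitAddCircle, B)) t = (fourier (-(n : ℤ)) t : ℂ) • (1 : B) := by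
      intro n t
      induction n with
      | zero => simp
      | succ n ih =>
        rw [pow_succ, Units.val_mul, ContinuousMap.mul_apply, ih]
        change (fourier (-(n : ℤ)) t : ℂ) • (1 : B) * ((fourier (-1) t : ℂ) • (1 : B)) = _
        rw [smul_mul_smul_comm, mul_one, ← fourier_add]
        congr 2
        push_cast
        ring_nf
    intro n t
    cases n with
    | ofNat n => exact hnat n t
    | negSucc n =>
      rw [zpow_negSucc, ← inv_pow, hnat']
      rfl
  let c : ℤ → C(UnitAddCircle, B) →ₗ[ℂ] B := fun n =>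
    { toFun := fun f => fourierCoeff (T := 1) f n
      map_add' := fun f g => by
        unfold fourierCoeff
        rw [← integral_add (hint n f) (hint n g)]
        refine integral_congr_ae (Eventually.of_forall fun t => ?_)
        exact smul_add _ _ _
      map_smul' := fun k f => by
        unfold fourierCoeff
        rw [RingHom.id_apply, ← integral_smul]
        refine integral_congr_ae (Eventually.of_forall fun t => ?_)
        exact smul_comm _ _ _ }
  have hfn : ∀ (n : ℤ) (t : UnitAddCircle), ‖(fourier n t : ℂ)‖ = 1 := fun n t => by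
    rw [fourier_apply]
    exact Circle.norm_coe _
  refine ⟨c, ⟨fun _ => rfl, ?_, ?_, ?_, ?_, ?_, ?_, ?_⟩⟩
  · intro b
    rw [ContinuousMap.norm_eq_iSup_norm]
    change (⨆ _ : UnitAddCircle, ‖b‖) = ‖b‖
    exact ciSup_const
  · refine (ContinuousMap.norm_le _ zero_le_one).2 fun t => ?_
    refine (norm_smul_le (fourier 1 t : ℂ) (1 : B)).trans ?_
    rw [hfn, one_mul]
    exact h1
  · refine (ContinuousMap.norm_le _ zero_le_one).2 fun t => ?_
    refine (norm_smul_le (fourier (-1) t : ℂ) (1 : B)).trans ?_
    rw [hfn, one_mul]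
    exact h1
  · intro b
    ext t
    change (fourier 1 t : ℂ) • (1 : B) * b = b * ((fourier 1 t : ℂ) • (1 : B))
    rw [smul_mul_assoc, one_mul, mul_smul_comm, mul_one]
  · refine PU_dense _ ?_
    intro φ a
    set W : Submodule ℂ C(UnitAddCircle, B) := Submodule.span ℂ {a : C(UnitAddCircle, B) |
      ∃ (b : B) (n : ℤ), a = cl B b * ((zU B ^ n : (C(UnitAddCircle, B))ˣ) :
        C(UnitAddCircle, B))} with hW
    let Φ : C(UnitAddCircle, ℂ) →L[ℂ] C(UnitAddCircle, B) :=
      LinearMap.mkContinuous
        { toFun := fun ψ => ⟨fun t => ψ t • a, ψ.continuous.smul continuous_const⟩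
          map_add' := fun ψ χ => by
            ext t
            exact add_smul (ψ t) (χ t) a
          map_smul' := fun k ψ => by
            ext t
            exact mul_smul k (ψ t) a } ‖a‖ (fun ψ => by
          refine (ContinuousMap.norm_le _ (by positivity)).2 fun t => ?_
          refine (norm_smul_le (ψ t) a).trans ?_
          rw [mul_comm]
          exact mul_le_mul_of_nonneg_left (ψ.norm_coe_le_norm t) (norm_nonneg a))
    have h3 : (Submodule.span ℂ (Set.range (fourier (T := 1)))) ≤
        W.comap (Φ : C(UnitAddCircle, ℂ) →ₗ[ℂ] C(UnitAddCircle, B)) := by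
      rw [Submodule.span_le]
      rintro _ ⟨n, rfl⟩
      refine Submodule.subset_span ⟨a, n, ?_⟩
      ext t
      change (fourier n t : ℂ) • a = a * _
      rw [hpow, mul_smul_comm, mul_one]
    have h4 : Φ φ ∈ W.topologicalClosure := by
      have hd : φ ∈ closure ((Submodule.span ℂ (Set.range (fourier (T := 1))) :
          Submodule ℂ C(UnitAddCircle, ℂ)) : Set C(UnitAddCircle, ℂ)) := by
        have := span_fourier_closure_eq_top (T := 1)
        have h5 : φ ∈ (Submodule.span ℂ (Set.range (fourier (T := 1)))).topologicalClosure := by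
          rw [this]
          trivial
        exact h5
      exact map_mem_closure Φ.continuous hd (t := (W : Set C(UnitAddCircle, B))) (fun x hx => h3 hx)
    intro g hg
    have : g = Φ φ := by
      ext t
      exact hg t
    rw [this]
    exact h4
  · intro n f
    change ‖fourierCoeff (T := 1) f n‖ ≤ ‖f‖
    unfold fourierCoeff
    refine (norm_integral_le_of_norm_le_const (C := ‖f‖) (Eventually.of_forall fun t => ?_)).trans ?_
    · refine (norm_smul_le (fourier (-n) t : ℂ) (f t)).trans ?_
      rw [hfn, one_mul]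
      exact f.norm_coe_le_norm t
    · rw [probReal_univ, mul_one]
  · intro m n b
    change fourierCoeff (T := 1) (cl B b * ((zU B ^ n : (C(UnitAddCircle, B))ˣ) :
        C(UnitAddCircle, B)) : C(UnitAddCircle, B)) m = _
    rw [← BZP_coeff b m n]
    congr 1
    funext t
    rw [ContinuousMap.mul_apply, hpow]
    change b * _ = _
    rw [mul_smul_comm, mul_one]

end Pool.Agent.PV
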