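import Pool.Agent.helper77.PV.SpecC2
import Pool.Agent.helper5.PV.BZP

set_option autoImplicit false

namespace Pool.Agent.PV

open Pool.Agent.CZ

theorem BZ1 : BZ1_stmt := fun B _ _ _ h => BZP_of B h

end Pool.Agent.PV
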