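import Pool.Agent.helper77.PV.SpecC

set_option autoImplicit false

open scoped Matrix Topology
open Filter

namespace Pool.Agent.PV

open Pool.Agent.CZ

theorem D0N_cont {X B D : Type} [TopologicalSpace X] [CompactSpace X] [NormedRing B]
    [NormedAlgebra ℂ B] [NormedRing D] [NormedAlgebra ℂ D] (φ : B →ₐ[ℂ] D) (hφ : Continuous φ) :
    Continuous (cmpC X φ hφ) :=
  ContinuousMap.continuous_postcomp (⟨φ, hφ⟩ : C(B, D))

theorem D0N (hD1N : D1N_stmt) (hBEN : BEN_stmt) (hHON : HON_stmt) (hK0G : K0G_stmt)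
    (hFUN : FUN_stmt) : D0N_stmt := by
  intro B A B' A' _ _ _ _ _ _ _ _ _ _ _ _ al io u c al' io' u' c' f F hf hZ hZ' hM d0 d0' h0 h0' z
  obtain ⟨h, h', hi, cc, be, dl, de, hp, hcc, hbe, hdl, hde, hd⟩ := h0
  obtain ⟨k, k', ki, cc', be', dl', de', hp', hcc', hbe', hdl', hde', hd'⟩ := h0'
  have hLM : ZMap (lal al h h') (cmpC UnitAddCircle io hi) (lu u) (lal al' k k')
      (cmpC UnitAddCircle io' ki) (lu u') (cmpC UnitAddCircle f hM.cf)
      (cmpC UnitAddCircle F hM.cF) := by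
    refine ⟨D0N_cont f hM.cf, D0N_cont F hM.cF, ?_, ?_, ?_⟩
    · intro b
      ext t
      exact hM.fal (b t)
    · intro b
      ext t
      exact hM.fio (b t)
    · ext t
      exact hM.fu
  have e1 := hBEN.1 A A' F hM.cF be be' (D0N_cont F hM.cF) hbe hbe' z
  have e2 := hD1N _ _ _ _ _ _ _ _ _ _ _ _ (cmpC UnitAddCircle f hM.cf) (cmpC UnitAddCircle F hM.cF)
    (D0N_cont F hM.cF) hp hp' hLM dl dl' hdl hdl' (be z)
  have e3 := hHON.1 B B' f hM.cf hf de de' hde hde' (dl (be z))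
  rw [hd, hd', e3, e2, e1]

end Pool.Agent.PV
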