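import Pool.Agent.helper77.PV.SpecC
import Pool.Agent.helper42.PV.HOA

set_option autoImplicit false
set_option linter.unusedSectionVars false
set_option linter.unusedVariables false

open scoped Matrix Topology
open Filter

namespace Pool.Agent.PV

open Pool.Agent.CZ

theorem HOF_inv {A ι X : Type} [NormedRing A] [CompleteSpace A] [Fintype ι] [DecidableEq ι]
    [TopologicalSpace X] (γ : X → Matrix ι ι A) (hγ : Continuous γ) (hu : ∀ t, IsUnit (γ t)) :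
    Continuous (fun t => Ring.inverse (γ t)) := by
  have hc : CompleteSpace (Matrix ι ι A) := inferInstance
  let N : NormedRing (Matrix ι ι A) := Matrix.linftyOpNormedRing
  have hc' : @CompleteSpace (Matrix ι ι A)
    N.toMetricSpace.toPseudoMetricSpace.toUniformSpace := hc
  have hg : @HasSummableGeomSeries (Matrix ι ι A) N :=
    @instHasSummableGeomSeriesOfCompleteSpace (Matrix ι ι A) N hc'
  have h1 : ∀ u : (Matrix ι ι A)ˣ, ContinuousAt Ring.inverse (u : Matrix ι ι A) := fun u =>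
    @NormedRing.inverse_continuousAt (Matrix ι ι A) N hg u
  rw [continuous_iff_continuousAt]
  intro t
  obtain ⟨u, hu'⟩ := hu t
  have h2 := h1 u
  rw [hu'] at h2
  exact ContinuousAt.comp (g := Ring.inverse) h2 hγ.continuousAt

section

variable {B : Type} [NormedRing B] [NormedAlgebra ℂ B] {κ ρ : Type} [Fintype κ] [DecidableEq κ]
  [Fintype ρ] [DecidableEq ρ]

/-- transport to a corner -/
theorem HOF_tr (hK1M : K1M_stmt) (hK1B : K1B_stmt) (J : Matrix κ ρ B) (J' : Matrix ρ κ B)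
    (hJ : J' * J = 1) (v : Matrix κ κ B) (h1 : J * J' * v = v) (h2 : v * (J * J') = v)
    (g : (Matrix κ κ B)ˣ) (hg : (g : Matrix κ κ B) = v + (1 - J * J')) (w : (Matrix ρ ρ B)ˣ)
    (hw : (w : Matrix ρ ρ B) = J' * v * J) : k1 g = k1 w := by
  have r1 : ∀ {μ : Type} (Z : Matrix ρ μ B), J' * (J * Z) = Z := fun Z => by
    rw [← Matrix.mul_assoc, hJ, Matrix.one_mul]
  have hQJ : (1 - J * J') * J = 0 := by
    rw [Matrix.sub_mul, Matrix.one_mul, Matrix.mul_assoc, hJ, Matrix.mul_one, sub_self]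
  have hJQ : J' * (1 - J * J') = 0 := by
    rw [Matrix.mul_sub, Matrix.mul_one, ← Matrix.mul_assoc, hJ, Matrix.one_mul, sub_self]
  have hQQ : (1 - J * J') * (1 - J * J') = 1 - J * J' := by
    rw [Matrix.mul_sub, Matrix.mul_one, ← Matrix.mul_assoc, hQJ, Matrix.zero_mul, sub_zero]
  let G : (Matrix (κ ⊕ ρ) (κ ⊕ ρ) B)ˣ :=
    { val := Matrix.fromBlocks (g : Matrix κ κ B) 0 0 1
      inv := Matrix.fromBlocks ((g⁻¹ : (Matrix κ κ B)ˣ) : Matrix κ κ B) 0 0 1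
      val_inv := by rw [Matrix.fromBlocks_multiply]; simp
      inv_val := by rw [Matrix.fromBlocks_multiply]; simp }
  let D : (Matrix (κ ⊕ ρ) (κ ⊕ ρ) B)ˣ :=
    { val := Matrix.fromBlocks 1 0 0 (w : Matrix ρ ρ B)
      inv := Matrix.fromBlocks 1 0 0 ((w⁻¹ : (Matrix ρ ρ B)ˣ) : Matrix ρ ρ B)
      val_inv := by rw [Matrix.fromBlocks_multiply]; simp
      inv_val := by rw [Matrix.fromBlocks_multiply]; simp }
  have hZZ : Matrix.fromBlocks (1 - J * J') J J' 0 * Matrix.fromBlocks (1 - J * J') J J' 0 =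
      (1 : Matrix (κ ⊕ ρ) (κ ⊕ ρ) B) := by
    rw [Matrix.fromBlocks_multiply, hQQ, hQJ, hJQ, hJ]
    simp
  let Z : (Matrix (κ ⊕ ρ) (κ ⊕ ρ) B)ˣ := ⟨Matrix.fromBlocks (1 - J * J') J J' 0,
    Matrix.fromBlocks (1 - J * J') J J' 0, hZZ, hZZ⟩
  have e1 : (1 - J * J') * v = 0 := by rw [Matrix.sub_mul, Matrix.one_mul, h1, sub_self]
  have e2 : (g : Matrix κ κ B) * (1 - J * J') = 1 - J * J' := by
    rw [hg, Matrix.add_mul, hQQ, Matrix.mul_sub, Matrix.mul_one, h2, sub_self, zero_add]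
  have e3 : (g : Matrix κ κ B) * J = v * J := by
    rw [hg, Matrix.add_mul, hQJ, add_zero]
  have e4 : Z * G * Z = D := by
    apply Units.ext
    change Matrix.fromBlocks (1 - J * J') J J' 0 * Matrix.fromBlocks (g : Matrix κ κ B) 0 0 1 *
      Matrix.fromBlocks (1 - J * J') J J' 0 = Matrix.fromBlocks 1 0 0 (w : Matrix ρ ρ B)
    rw [mul_assoc, Matrix.fromBlocks_multiply, e2, e3, Matrix.fromBlocks_multiply, hw]
    simp only [Matrix.zero_mul, add_zero, zero_add, Matrix.one_mul, Matrix.mul_zero]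
    rw [hQQ, ← Matrix.mul_assoc, e1, Matrix.zero_mul, hJQ, Matrix.mul_assoc, sub_add_cancel]
  have e5 : Z⁻¹ = Z := by
    apply Units.ext
    rfl
  have e6 : k1 D = k1 G := by
    rw [← e4, (hK1M B (κ ⊕ ρ) (Z * G) Z).1, (hK1M B (κ ⊕ ρ) Z G).1]
    have := (hK1M B (κ ⊕ ρ) Z Z).2.1
    rw [e5] at this
    rw [add_assoc, add_comm (k1 G), ← add_assoc]
    nth_rw 1 [this]
    rw [neg_add_cancel, zero_add]
  have o1 : k1 (1 : (Matrix ρ ρ B)ˣ) = 0 := (hK1M B ρ 1 1).2.2.1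
  have o2 : k1 (1 : (Matrix κ κ B)ˣ) = 0 := (hK1M B κ 1 1).2.2.1
  have e7 : k1 G = k1 g := by
    rw [hK1B B κ ρ g 1 G rfl, o1, add_zero]
  have e8 : k1 D = k1 w := by
    rw [hK1B B κ ρ 1 w D rfl, o2, zero_add]
  rw [← e7, ← e8, e6]

end

theorem HOF_idem {R : Type} [Ring R] (e E g h : R) (he : e * e = e) (h1 : g * e * (e * h) = E)
    (h2 : e * h * (g * e) = e) : E * E = E := by
  calc E * E = g * e * (e * h * (g * e)) * (e * h) := by
        rw [← h1]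
        simp only [mul_assoc]
    _ = g * (e * e) * (e * h) := by
        rw [h2]
        simp only [mul_assoc]
    _ = E := by rw [he, h1]

theorem HOF_surj (t : UnitAddCircle) : ∃ s : unitInterval, ((s : ℝ) : UnitAddCircle) = t := by
  have h := AddCircle.coe_image_Icc_eq (1 : ℝ) 0
  have ht : t ∈ ((↑) '' Set.Icc (0 : ℝ) (0 + 1) : Set (AddCircle (1 : ℝ))) := by
    rw [h]
    trivial
  obtain ⟨s, hs, hst⟩ := ht
  rw [zero_add] at hs
  exact ⟨⟨s, hs⟩, hst⟩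

section

variable {B : Type} [NormedRing B] [NormedAlgebra ℂ B] [CompleteSpace B] {κ ρ : Type} [Fintype κ]
  [DecidableEq κ] [Fintype ρ] [DecidableEq ρ]

theorem HOF_core (hHOA : HOA_stmt) (hLPC : LPC_stmt) (hK0E : K0E_stmt) (hK0B : K0B_stmt)
    (hK1Z : K1Z_stmt) (hK1M : K1M_stmt) (hK1B : K1B_stmt)
    (de : K0 C(UnitAddCircle, B) →+ K1 B) (hde : IsDe B de)
    (J : Matrix κ ρ B) (J' : Matrix ρ κ B) (hJ : J' * J = 1)
    (E : Matrix κ κ C(UnitAddCircle, B)) (hE : E * E = E) (hE0 : evM E 0 = J * J')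
    (hd : de (k0 E hE) = 0) :
    k0 E hE = Fintype.card ρ • unitCls C(UnitAddCircle, B) := by
  obtain ⟨⟨V, V', g, hol, hg⟩, -⟩ := hHOA B κ E hE
  have hg1 : k1 g = 0 := by
    rw [← hde κ E hE V V' g hol hg]
    exact hd
  have a1 : J * J' * V 1 = V 1 := by
    rw [← hE0]
    exact HOA_f5 hol
  have a2 : V 1 * (J * J') = V 1 := by
    rw [← hE0]
    exact hol.ve 1
  have a5 : V' 1 * V 1 = J * J' := by
    rw [← hE0]
    exact hol.l 1
  have a6 : V 1 * V' 1 = J * J' := by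
    rw [← hE0]
    exact HOA_f7 hol
  have r1 : ∀ {μ : Type} (Z : Matrix ρ μ B), J' * (J * Z) = Z := fun Z => by
    rw [← Matrix.mul_assoc, hJ, Matrix.one_mul]
  have hw1 : ∀ a b : Matrix κ κ B, a * (J * J') = a → a * b = J * J' →
      J' * a * J * (J' * b * J) = 1 := by
    intro a b ha hab
    calc J' * a * J * (J' * b * J) = J' * (a * (J * J') * b) * J := by
          simp only [Matrix.mul_assoc]
      _ = 1 := by
          rw [ha, hab]
          simp only [Matrix.mul_assoc]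
          rw [r1, hJ]
  let w : (Matrix ρ ρ B)ˣ :=
    { val := J' * V 1 * J
      inv := J' * V' 1 * J
      val_inv := hw1 _ _ a2 a6
      inv_val := hw1 _ _ (by rw [← hE0]; exact HOA_f6 hol) a5 }
  have hkw : k1 w = 0 := by
    rw [← HOF_tr hK1M hK1B J J' hJ (V 1) a1 a2 g (by rw [hg, hE0]) w rfl]
    exact hg1
  obtain ⟨k, w', hw', γ, hγu, hγ0, hγ1⟩ := hK1Z B ρ w hkw
  obtain ⟨JJ, hJJd⟩ : ∃ JJ : Matrix (κ ⊕ Fin k) (ρ ⊕ Fin k) B, JJ = Matrix.fromBlocks J 0 0 1 :=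
    ⟨_, rfl⟩
  obtain ⟨KK, hKKd⟩ : ∃ KK : Matrix (ρ ⊕ Fin k) (κ ⊕ Fin k) B, KK = Matrix.fromBlocks J' 0 0 1 :=
    ⟨_, rfl⟩
  have hKJ : KK * JJ = 1 := by
    rw [hJJd, hKKd, Matrix.fromBlocks_multiply, hJ]
    simp
  have hJK : JJ * KK = Matrix.fromBlocks (J * J') 0 0 1 := by
    rw [hJJd, hKKd, Matrix.fromBlocks_multiply]
    simp
  let VV : unitInterval → Matrix (κ ⊕ Fin k) (κ ⊕ Fin k) B := fun s =>
    Matrix.fromBlocks (V s) 0 0 1
  let VV' : unitInterval → Matrix (κ ⊕ Fin k) (κ ⊕ Fin k) B := fun s =>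
    Matrix.fromBlocks (V' s) 0 0 1
  have cVV : Continuous VV := Continuous.matrix_fromBlocks V.continuous continuous_const
    continuous_const continuous_const
  have cVV' : Continuous VV' := Continuous.matrix_fromBlocks V'.continuous continuous_const
    continuous_const continuous_const
  let γi : unitInterval → Matrix (ρ ⊕ Fin k) (ρ ⊕ Fin k) B := fun s => Ring.inverse (γ s)
  have cγi : Continuous γi := HOF_inv (fun s => γ s) γ.continuous hγu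
  have R1 : ∀ (s : unitInterval) {μ : Type} (Z : Matrix (κ ⊕ Fin k) μ B),
      VV' s * (VV s * Z) = JJ * (KK * Z) := by
    intro s μ Z
    rw [← Matrix.mul_assoc, ← Matrix.mul_assoc, hJK]
    congr 1
    change Matrix.fromBlocks (V' s) 0 0 1 * Matrix.fromBlocks (V s) 0 0 1 = _
    rw [Matrix.fromBlocks_multiply, hol.l s, hE0]
    simp
  have R2 : ∀ {μ : Type} (Z : Matrix (ρ ⊕ Fin k) μ B), KK * (JJ * Z) = Z := fun Z => by
    rw [← Matrix.mul_assoc, hKJ, Matrix.one_mul]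
  have R3 : ∀ (s : unitInterval) {μ : Type} (Z : Matrix (ρ ⊕ Fin k) μ B),
      γi s * (γ s * Z) = Z := fun s μ Z => by
    rw [← Matrix.mul_assoc]
    change (Ring.inverse (γ s) * γ s) * Z = Z
    rw [Ring.inverse_mul_cancel _ (hγu s), Matrix.one_mul]
  have R6 : ∀ (s : unitInterval) {μ : Type} (Z : Matrix (ρ ⊕ Fin k) μ B),
      γ s * (γi s * Z) = Z := fun s μ Z => by
    rw [← Matrix.mul_assoc]
    change (γ s * Ring.inverse (γ s)) * Z = Z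
    rw [Ring.mul_inverse_cancel _ (hγu s), Matrix.one_mul]
  obtain ⟨ww, hww⟩ : ∃ ww : Matrix (ρ ⊕ Fin k) (ρ ⊕ Fin k) B, ww = (w' : Matrix (ρ ⊕ Fin k) (ρ ⊕ Fin k) B) :=
    ⟨_, rfl⟩
  obtain ⟨wi, hwi⟩ : ∃ wi : Matrix (ρ ⊕ Fin k) (ρ ⊕ Fin k) B,
      wi = ((w'⁻¹ : (Matrix (ρ ⊕ Fin k) (ρ ⊕ Fin k) B)ˣ) : Matrix (ρ ⊕ Fin k) (ρ ⊕ Fin k) B) :=
    ⟨_, rfl⟩
  have R4 : ∀ {μ : Type} (Z : Matrix (ρ ⊕ Fin k) μ B), ww * (wi * Z) = Z := fun Z => by
    rw [← Matrix.mul_assoc, hww, hwi, Units.mul_inv, Matrix.one_mul]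
  have R5 : ∀ {μ : Type} (Z : Matrix (ρ ⊕ Fin k) μ B), wi * (ww * Z) = Z := fun Z => by
    rw [← Matrix.mul_assoc, hww, hwi, Units.inv_mul, Matrix.one_mul]
  have R7 : ∀ s : unitInterval, JJ * (KK * VV' s) = VV' s := by
    intro s
    rw [← Matrix.mul_assoc, hJK]
    change Matrix.fromBlocks (J * J') 0 0 1 * Matrix.fromBlocks (V' s) 0 0 1 =
      Matrix.fromBlocks (V' s) 0 0 1
    rw [Matrix.fromBlocks_multiply, ← hE0, hol.ev s]
    simp
  have R8 : VV 1 = JJ * (ww * KK) := by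
    rw [hww, hw', hJJd, hKKd, Matrix.fromBlocks_multiply, Matrix.fromBlocks_multiply]
    change Matrix.fromBlocks (V 1) 0 0 1 = _
    simp only [Matrix.mul_zero, Matrix.zero_mul, add_zero, zero_add, Matrix.mul_one]
    congr 1
    change V 1 = J * (J' * V 1 * J * J')
    calc V 1 = J * J' * V 1 * (J * J') := by rw [a1, a2]
      _ = J * (J' * V 1 * J * J') := by simp only [Matrix.mul_assoc]
  have R9 : VV 1 * VV' 1 = JJ * KK := by
    change Matrix.fromBlocks (V 1) 0 0 1 * Matrix.fromBlocks (V' 1) 0 0 1 = _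
    rw [Matrix.fromBlocks_multiply, a6, hJK]
    simp
  have R10 : VV 0 = JJ * KK := by
    change Matrix.fromBlocks (V 0) 0 0 1 = _
    rw [hol.v0, hJK, hE0]
  have R11 : VV' 0 = JJ * KK := by
    change Matrix.fromBlocks (V' 0) 0 0 1 = _
    rw [HOA_f4 hol, hJK, hE0]
  have R12 : γi 0 = wi := by
    change Ring.inverse (γ 0) = _
    rw [hγ0, Ring.inverse_unit, hwi]
  have R13 : γi 1 = 1 := by
    change Ring.inverse (γ 1) = _
    rw [hγ1, Units.val_one, Ring.inverse_one]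
  let Y : C(unitInterval, Matrix (κ ⊕ Fin k) (κ ⊕ Fin k) B) :=
    ⟨fun s => VV s * (JJ * (γ s * (wi * KK))), cVV.matrix_mul (continuous_const.matrix_mul
      (γ.continuous.matrix_mul continuous_const))⟩
  let X : C(unitInterval, Matrix (κ ⊕ Fin k) (κ ⊕ Fin k) B) :=
    ⟨fun s => JJ * (ww * (γi s * (KK * VV' s))), continuous_const.matrix_mul
      (continuous_const.matrix_mul (cγi.matrix_mul (continuous_const.matrix_mul cVV')))⟩
  have hXY : ∀ s, X s * Y s = JJ * KK := by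
    intro s
    change JJ * (ww * (γi s * (KK * VV' s))) * (VV s * (JJ * (γ s * (wi * KK)))) = _
    simp only [Matrix.mul_assoc]
    rw [R1, R2, R2, R3, R4]
  have hYX : ∀ s, Y s * X s = Matrix.fromBlocks (evM E ((s : ℝ) : UnitAddCircle)) 0 0 1 := by
    intro s
    change VV s * (JJ * (γ s * (wi * KK))) * (JJ * (ww * (γi s * (KK * VV' s)))) = _
    simp only [Matrix.mul_assoc]
    rw [R2, R5, R6, R7]
    change Matrix.fromBlocks (V s) 0 0 1 * Matrix.fromBlocks (V' s) 0 0 1 = _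
    rw [Matrix.fromBlocks_multiply, hol.r s]
    simp
  have hY : Y 0 = Y 1 := by
    change VV 0 * (JJ * (γ 0 * (wi * KK))) = VV 1 * (JJ * (γ 1 * (wi * KK)))
    rw [R10, R8, hγ0, hγ1, ← hww, Units.val_one, Matrix.one_mul, R4]
    simp only [Matrix.mul_assoc]
    rw [R2, R2, R4]
  have hX : X 0 = X 1 := by
    change JJ * (ww * (γi 0 * (KK * VV' 0))) = JJ * (ww * (γi 1 * (KK * VV' 1)))
    rw [R12, R13, R11, Matrix.one_mul, R4, R2]
    rw [← R9, R8]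
    simp only [Matrix.mul_assoc]
  obtain ⟨Xl, hXl⟩ := hLPC B (κ ⊕ Fin k) X hX
  obtain ⟨Yl, hYl⟩ := hLPC B (κ ⊕ Fin k) Y hY
  have hext : ∀ {μ ν : Type} (M N : Matrix μ ν C(UnitAddCircle, B)),
      (∀ t : UnitAddCircle, M.map (fun f => f t) = N.map (fun f => f t)) → M = N := by
    intro μ ν M N h
    ext i j t
    exact congrFun (congrFun (h t) i) j
  have hmul1 : Yl * Xl = Matrix.fromBlocks E 0 0 1 := by
    refine hext _ _ fun t => ?_
    obtain ⟨s, rfl⟩ := HOF_surj t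
    rw [HOA_evM_mul]
    have e1 := hYl s
    have e2 := hXl s
    unfold evM at e1 e2
    have z1 : (1 : Matrix (Fin k) (Fin k) C(UnitAddCircle, B)).map
        (fun f => f ((s : ℝ) : UnitAddCircle)) = 1 := by
      ext i j
      by_cases h : i = j
      · subst h
        simp
      · simp [h]
    rw [e1, e2, hYX s, Matrix.fromBlocks_map, z1]
    rfl
  obtain ⟨Jc, hJc⟩ : ∃ Jc : Matrix (κ ⊕ Fin k) (ρ ⊕ Fin k) C(UnitAddCircle, B),
      Jc = JJ.map (cl B) := ⟨_, rfl⟩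
  obtain ⟨Kc, hKc⟩ : ∃ Kc : Matrix (ρ ⊕ Fin k) (κ ⊕ Fin k) C(UnitAddCircle, B),
      Kc = KK.map (cl B) := ⟨_, rfl⟩
  have hKcJc : Kc * Jc = 1 := by
    rw [hKc, hJc]
    have h := Matrix.map_mul (L := KK) (M := JJ) (f := (cl B).toRingHom)
    change (KK * JJ).map (cl B) = KK.map (cl B) * JJ.map (cl B) at h
    rw [← h, hKJ]
    exact Matrix.map_one _ (map_zero (cl B)) (map_one (cl B))
  have hmul2 : Xl * Yl = Jc * Kc := by
    rw [hKc, hJc]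
    have h := Matrix.map_mul (L := JJ) (M := KK) (f := (cl B).toRingHom)
    change (JJ * KK).map (cl B) = JJ.map (cl B) * KK.map (cl B) at h
    rw [← h]
    refine hext _ _ fun t => ?_
    obtain ⟨s, rfl⟩ := HOF_surj t
    rw [HOA_evM_mul]
    have e1 := hYl s
    have e2 := hXl s
    unfold evM at e1 e2
    rw [e1, e2, hXY s]
    ext i j
    rfl
  have hid : (Matrix.fromBlocks E 0 0 1 : Matrix (κ ⊕ Fin k) (κ ⊕ Fin k) C(UnitAddCircle, B)) *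
      Matrix.fromBlocks E 0 0 1 = Matrix.fromBlocks E 0 0 1 := by
    rw [Matrix.fromBlocks_multiply, hE]
    simp
  have hid2 : Jc * Kc * (Jc * Kc) = Jc * Kc := by
    rw [Matrix.mul_assoc, ← Matrix.mul_assoc Kc, hKcJc, Matrix.one_mul]
  have hone : ∀ (μ : Type) [Fintype μ] [DecidableEq μ],
      (1 : Matrix μ μ C(UnitAddCircle, B)) * 1 = 1 := fun μ _ _ => Matrix.one_mul 1
  have s1 := hK0E C(UnitAddCircle, B) (κ ⊕ Fin k) (κ ⊕ Fin k) (Matrix.fromBlocks E 0 0 1)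
    (Jc * Kc) hid hid2 Yl Xl hmul1 hmul2
  have s2 := hK0E C(UnitAddCircle, B) (κ ⊕ Fin k) (ρ ⊕ Fin k) (Jc * Kc) 1 hid2 (hone _) Jc Kc rfl
    hKcJc
  have s3 := hK0B.1 C(UnitAddCircle, B) κ (Fin k) E 1 hE (hone _) hid
  have s4 := hK0B.2.2 C(UnitAddCircle, B) (Fin k) (hone _)
  have s5 := hK0B.2.2 C(UnitAddCircle, B) (ρ ⊕ Fin k) (hone _)
  rw [s2, s5, s3, s4, Fintype.card_sum, add_smul] at s1
  exact add_right_cancel s1

end

theorem HOF_pad {A : Type} [Ring A] (n m k l : ℕ) : ∃ (J : Matrix ((Fin n ⊕ Fin m) ⊕ (Fin k ⊕ Fin l)) (Fin m ⊕ Fin k) A)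
    (J' : Matrix (Fin m ⊕ Fin k) ((Fin n ⊕ Fin m) ⊕ (Fin k ⊕ Fin l)) A), J' * J = 1 ∧
      J * J' = pad (Matrix.fromBlocks 0 0 0 1) k l := by
  refine ⟨Matrix.fromBlocks (Matrix.fromRows 0 1) 0 0 (Matrix.fromRows 1 0),
    Matrix.fromBlocks (Matrix.fromCols 0 1) 0 0 (Matrix.fromCols 1 0), ?_, ?_⟩
  · rw [Matrix.fromBlocks_multiply, Matrix.fromCols_mul_fromRows, Matrix.fromCols_mul_fromRows]
    simp
  · unfold pad
    rw [Matrix.fromBlocks_multiply, Matrix.fromRows_mul_fromCols, Matrix.fromRows_mul_fromCols]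
    simp

theorem HOF (hHOA : HOA_stmt) (hLPC : LPC_stmt) (hK0G : K0G_stmt) (hK0C : K0C_stmt)
    (hK0D : K0D_stmt) (hK0E : K0E_stmt) (hK0B : K0B_stmt) (hK1Z : K1Z_stmt) (hK1M : K1M_stmt)
    (hK1B : K1B_stmt) (hFUN : FUN_stmt) : HOF_stmt := by
  intro B _ _ _ de hde z hz hd
  obtain ⟨n, m, E₀, hE₀, rfl⟩ := hK0G C(UnitAddCircle, B) z
  have hone : ∀ (μ : Type) [Fintype μ] [DecidableEq μ],
      (1 : Matrix μ μ C(UnitAddCircle, B)) * 1 = 1 := fun μ _ _ => Matrix.one_mul 1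
  -- de of the unit
  have hdu : de (unitCls C(UnitAddCircle, B)) = 0 := by
    have h1 := hK0B.2.2 C(UnitAddCircle, B) (Fin 1) (hone _)
    rw [Fintype.card_fin, one_smul] at h1
    rw [← h1]
    have hev : ∀ t : UnitAddCircle, evM (1 : Matrix (Fin 1) (Fin 1) C(UnitAddCircle, B)) t = 1 := by
      intro t
      ext i j
      have : i = j := Subsingleton.elim _ _
      subst this
      simp [evM]
    have hh : Hol (1 : Matrix (Fin 1) (Fin 1) C(UnitAddCircle, B))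
        (ContinuousMap.const unitInterval (1 : Matrix (Fin 1) (Fin 1) B))
        (ContinuousMap.const unitInterval (1 : Matrix (Fin 1) (Fin 1) B)) := by
      constructor
      · rw [hev]; rfl
      · intro s
        rw [hev]
        exact mul_one 1
      · intro s
        rw [hev]
        exact mul_one 1
      · intro s
        rw [hev]
        exact mul_one _
      · intro s
        rw [hev]
        exact one_mul _
    rw [hde (Fin 1) 1 (hone _) _ _ 1 hh ?_]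
    · exact (hK1M B (Fin 1) 1 1).2.2.1
    · rw [hev, sub_self, add_zero]
      rfl
  -- the value at the base point
  have hE00 : (E₀.map (el B)) * (E₀.map (el B)) = E₀.map (el B) := by
    have h := Matrix.map_mul (L := E₀) (M := E₀) (f := (el B).toRingHom)
    rw [hE₀] at h
    exact h.symm
  have hz1 : k0 (E₀.map (el B)) hE00 = m • unitCls B := by
    rw [map_sub, map_nsmul, hFUN.2.2.1, sub_eq_zero] at hz
    rw [← hz]
    rfl
  have h00 : (0 : Matrix (Fin m) (Fin m) B) * 0 = 0 := Matrix.mul_zero 0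
  have h00' : (0 : Matrix (Fin n) (Fin n) B) * 0 = 0 := Matrix.mul_zero 0
  have h11 : (1 : Matrix (Fin m) (Fin m) B) * 1 = 1 := Matrix.mul_one 1
  have hb1 : (Matrix.fromBlocks (E₀.map (el B)) 0 0 0 : Matrix (Fin n ⊕ Fin m) (Fin n ⊕ Fin m) B) *
      Matrix.fromBlocks (E₀.map (el B)) 0 0 0 = Matrix.fromBlocks (E₀.map (el B)) 0 0 0 := by
    rw [Matrix.fromBlocks_multiply, hE00]
    simp
  have hb2 : (Matrix.fromBlocks 0 0 0 1 : Matrix (Fin n ⊕ Fin m) (Fin n ⊕ Fin m) B) *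
      Matrix.fromBlocks 0 0 0 1 = Matrix.fromBlocks 0 0 0 1 := by
    rw [Matrix.fromBlocks_multiply]
    simp
  have hz2 : k0 (Matrix.fromBlocks (E₀.map (el B)) 0 0 0 : Matrix (Fin n ⊕ Fin m) (Fin n ⊕ Fin m) B)
      hb1 = k0 (Matrix.fromBlocks 0 0 0 1) hb2 := by
    rw [hK0B.1 B (Fin n) (Fin m) (E₀.map (el B)) 0 hE00 h00 hb1,
      hK0B.1 B (Fin n) (Fin m) 0 1 h00' h11 hb2, hK0B.2.1 B (Fin m) h00, hK0B.2.1 B (Fin n) h00',
      hK0B.2.2 B (Fin m) h11, hz1, Fintype.card_fin, add_zero, zero_add]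
  obtain ⟨k, l, g, hg⟩ := hK0C B (Fin n ⊕ Fin m) _ _ hb1 hb2 hz2
  obtain ⟨J, J', hJ1, hJ2⟩ := HOF_pad (A := B) n m k l
  -- the matrices over the loop algebra
  have h00c : (0 : Matrix (Fin m) (Fin m) C(UnitAddCircle, B)) * 0 = 0 := Matrix.mul_zero 0
  have hb3 : (Matrix.fromBlocks E₀ 0 0 0 : Matrix (Fin n ⊕ Fin m) (Fin n ⊕ Fin m)
      C(UnitAddCircle, B)) * Matrix.fromBlocks E₀ 0 0 0 = Matrix.fromBlocks E₀ 0 0 0 := by
    rw [Matrix.fromBlocks_multiply, hE₀]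
    simp
  obtain ⟨hp, hp'⟩ := hK0D C(UnitAddCircle, B) (Fin n ⊕ Fin m) (Matrix.fromBlocks E₀ 0 0 0) hb3 k l
  rw [hK0B.1 C(UnitAddCircle, B) (Fin n) (Fin m) E₀ 0 hE₀ h00c hb3,
    hK0B.2.1 C(UnitAddCircle, B) (Fin m) h00c, add_zero] at hp'
  obtain ⟨E₁, hE₁d⟩ : ∃ E₁ : Matrix ((Fin n ⊕ Fin m) ⊕ (Fin k ⊕ Fin l))
      ((Fin n ⊕ Fin m) ⊕ (Fin k ⊕ Fin l)) C(UnitAddCircle, B),
      E₁ = pad (Matrix.fromBlocks E₀ 0 0 0) k l := ⟨_, rfl⟩
  have hE₁ : E₁ * E₁ = E₁ := by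
    rw [hE₁d]
    exact hp
  have hp2 : k0 E₁ hE₁ = k0 E₀ hE₀ + k • unitCls C(UnitAddCircle, B) := by
    subst hE₁d
    exact hp'
  let G := umap (cl B).toRingHom g
  obtain ⟨E, hEd⟩ : ∃ E : Matrix ((Fin n ⊕ Fin m) ⊕ (Fin k ⊕ Fin l))
      ((Fin n ⊕ Fin m) ⊕ (Fin k ⊕ Fin l)) C(UnitAddCircle, B),
      E = (G : Matrix ((Fin n ⊕ Fin m) ⊕ (Fin k ⊕ Fin l))
      ((Fin n ⊕ Fin m) ⊕ (Fin k ⊕ Fin l)) C(UnitAddCircle, B)) * E₁ *
      ((G⁻¹ : (Matrix ((Fin n ⊕ Fin m) ⊕ (Fin k ⊕ Fin l))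
      ((Fin n ⊕ Fin m) ⊕ (Fin k ⊕ Fin l)) C(UnitAddCircle, B))ˣ) :
      Matrix ((Fin n ⊕ Fin m) ⊕ (Fin k ⊕ Fin l)) ((Fin n ⊕ Fin m) ⊕ (Fin k ⊕ Fin l))
      C(UnitAddCircle, B)) := ⟨_, rfl⟩
  have x1 : (G : Matrix ((Fin n ⊕ Fin m) ⊕ (Fin k ⊕ Fin l))
      ((Fin n ⊕ Fin m) ⊕ (Fin k ⊕ Fin l)) C(UnitAddCircle, B)) * E₁ * (E₁ *
      ((G⁻¹ : (Matrix ((Fin n ⊕ Fin m) ⊕ (Fin k ⊕ Fin l))
      ((Fin n ⊕ Fin m) ⊕ (Fin k ⊕ Fin l)) C(UnitAddCircle, B))ˣ) :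
      Matrix ((Fin n ⊕ Fin m) ⊕ (Fin k ⊕ Fin l)) ((Fin n ⊕ Fin m) ⊕ (Fin k ⊕ Fin l))
      C(UnitAddCircle, B))) = E := by
    rw [hEd, mul_assoc, ← mul_assoc E₁, hE₁, ← mul_assoc]
  have x2 : (E₁ *
      ((G⁻¹ : (Matrix ((Fin n ⊕ Fin m) ⊕ (Fin k ⊕ Fin l))
      ((Fin n ⊕ Fin m) ⊕ (Fin k ⊕ Fin l)) C(UnitAddCircle, B))ˣ) :
      Matrix ((Fin n ⊕ Fin m) ⊕ (Fin k ⊕ Fin l)) ((Fin n ⊕ Fin m) ⊕ (Fin k ⊕ Fin l))
      C(UnitAddCircle, B))) * ((G : Matrix ((Fin n ⊕ Fin m) ⊕ (Fin k ⊕ Fin l))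
      ((Fin n ⊕ Fin m) ⊕ (Fin k ⊕ Fin l)) C(UnitAddCircle, B)) * E₁) = E₁ := by
    rw [mul_assoc, ← mul_assoc ((G⁻¹ : (Matrix ((Fin n ⊕ Fin m) ⊕ (Fin k ⊕ Fin l))
      ((Fin n ⊕ Fin m) ⊕ (Fin k ⊕ Fin l)) C(UnitAddCircle, B))ˣ) :
      Matrix ((Fin n ⊕ Fin m) ⊕ (Fin k ⊕ Fin l)) ((Fin n ⊕ Fin m) ⊕ (Fin k ⊕ Fin l))
      C(UnitAddCircle, B)), Units.inv_mul, one_mul, hE₁]
  have hE : E * E = E := HOF_idem E₁ E _ _ hE₁ x1 x2
  have x3 : k0 E hE = k0 E₁ hE₁ := hK0E C(UnitAddCircle, B) _ _ E E₁ hE hE₁ _ _ x1 x2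
  have hE0 : evM E 0 = J * J' := by
    rw [hJ2, hEd]
    unfold evM
    rw [HOA_evM_mul, HOA_evM_mul]
    have y1 : (G : Matrix ((Fin n ⊕ Fin m) ⊕ (Fin k ⊕ Fin l))
      ((Fin n ⊕ Fin m) ⊕ (Fin k ⊕ Fin l)) C(UnitAddCircle, B)).map (fun f => f 0) = g := by
      ext i j
      rfl
    have y2 : ((G⁻¹ : (Matrix ((Fin n ⊕ Fin m) ⊕ (Fin k ⊕ Fin l))
      ((Fin n ⊕ Fin m) ⊕ (Fin k ⊕ Fin l)) C(UnitAddCircle, B))ˣ) :
      Matrix ((Fin n ⊕ Fin m) ⊕ (Fin k ⊕ Fin l)) ((Fin n ⊕ Fin m) ⊕ (Fin k ⊕ Fin l))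
      C(UnitAddCircle, B)).map (fun f => f 0) = ((g⁻¹ : (Matrix ((Fin n ⊕ Fin m) ⊕ (Fin k ⊕ Fin l))
      ((Fin n ⊕ Fin m) ⊕ (Fin k ⊕ Fin l)) B)ˣ) : Matrix ((Fin n ⊕ Fin m) ⊕ (Fin k ⊕ Fin l))
      ((Fin n ⊕ Fin m) ⊕ (Fin k ⊕ Fin l)) B) := by
      ext i j
      rfl
    have y3 : E₁.map (fun f => f 0) = pad (Matrix.fromBlocks (E₀.map (el B)) 0 0 0) k l := by
      rw [hE₁d]
      unfold pad
      rw [Matrix.fromBlocks_map, Matrix.fromBlocks_map, Matrix.fromBlocks_map]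
      have z1 : (1 : Matrix (Fin k) (Fin k) C(UnitAddCircle, B)).map
          (fun f => f (0 : UnitAddCircle)) = 1 := by
        ext i j
        by_cases h : i = j
        · subst h
          simp
        · simp [h]
      rw [z1]
      rfl
    rw [y1, y2, y3, hg, mul_assoc, Units.mul_inv, mul_one]
  have hdE : de (k0 E hE) = 0 := by
    rw [map_sub, map_nsmul, hdu, smul_zero, sub_zero] at hd
    rw [x3, hp2, map_add, map_nsmul, hdu, smul_zero, hd, add_zero]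
  have hfin := HOF_core hHOA hLPC hK0E hK0B hK1Z hK1M hK1B de hde J J' hJ1 E hE hE0 hdE
  rw [x3, hp2, Fintype.card_sum, Fintype.card_fin, Fintype.card_fin, add_smul] at hfin
  rw [sub_eq_zero]
  exact add_right_cancel hfin

end Pool.Agent.PV
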